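import Pool.Agent.Helper17.OD.GoalsWM

/-!
# Packet OD EDF: definability of the basic notions on codes of trees
-/

namespace Pool.Agent.Helper17.OD.PkEDF

open Set

variable {W Q : Set Z}

/-- `f` is a set of codes, closed under subtrees, with all ordinal leaves in `A`. -/
def Cl (A : Set Z) (f : Z) : Prop := ∀ x ∈ f, (∃ n ∈ zω, x = ZFSet.pair (zn 0) n) ∨
  (∃ a ∈ A, a.IsOrdinal ∧ x = ZFSet.pair (zn 1) a) ∨
  ∃ y ∈ f, ∃ z ∈ f, x = ZFSet.pair (zn 2) (ZFSet.pair y z)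

theorem cl_sound {A : Set Z} {f : Z} (hf : Cl A f) : ∀ (r : O) (x : Z), x.rank = r → x ∈ f →
    ∃ t : T, x = enc t ∧ ∀ a ∈ t.leaves, a.toZFSet ∈ A := by
  intro r
  induction r using WellFoundedLT.induction with
  | _ r ih =>
    intro x hxr hx
    rcases hf x hx with ⟨n, hn, rfl⟩ | ⟨a, haA, ha, rfl⟩ | ⟨y, hy, z, hz, rfl⟩
    · obtain ⟨m, rfl⟩ := (mem_zω n).1 hn
      exact ⟨.nat m, rfl, fun a ha => by simp [Tr.leaves] at ha⟩
    · refine ⟨.ord a.rank, ?_, fun b hb => ?_⟩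
      · change _ = ZFSet.pair (zn 1) (a.rank).toZFSet
        rw [ha.toZFSet_rank_eq]
      · simp only [Tr.leaves, mem_singleton_iff] at hb
        rw [hb, ha.toZFSet_rank_eq]
        exact haA
    · rw [pair_rank, pair_rank] at hxr
      have h1 : max y.rank z.rank < r := by
        rw [← hxr]
        refine lt_of_lt_of_le ?_ (le_add_right (le_max_right _ _))
        have : max y.rank z.rank < Order.succ (max y.rank z.rank) := Order.lt_succ _
        refine this.trans_le ?_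
        rw [Order.succ_eq_add_one]
        exact add_le_add_right (by norm_num) _
      obtain ⟨s, hs, hs'⟩ := ih _ ((le_max_left _ _).trans_lt h1) y rfl hy
      obtain ⟨t, ht, ht'⟩ := ih _ ((le_max_right _ _).trans_lt h1) z rfl hz
      refine ⟨.pr s t, by rw [hs, ht]; rfl, fun a ha => ?_⟩
      rcases ha with ha | ha
      · exact hs' a ha
      · exact ht' a ha

theorem ins_mem [hz : ZM W] {x y : Z} (hx : x ∈ W) (hy : y ∈ W) : (insert x y : Z) ∈ W :=
  (DT.ins (W := W) (Q := W) (DT.par hx) (DT.par hy)).1 (fun _ => ∅) (fun _ => hz.emp)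

theorem un_mem [hz : ZM W] {x y : Z} (hx : x ∈ W) (hy : y ∈ W) : (x ∪ y : Z) ∈ W :=
  (DT.un (W := W) (Q := W) (DT.par hx) (DT.par hy)).1 (fun _ => ∅) (fun _ => hz.emp)

theorem zn_mem [hz : ZM W] (n : ℕ) : zn n ∈ W :=
  (DT.nat (W := W) (Q := W) n).1 (fun _ => ∅) (fun _ => hz.emp)

theorem enc_pr {s t : T} [hz : ZM W] (h : enc (.pr s t) ∈ W) : enc s ∈ W ∧ enc t ∈ W := by
  have h1 : ZFSet.pair (zn 2) (ZFSet.pair (enc s) (enc t)) ∈ W := h
  exact mem_of_pair (mem_of_pair h1).2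

theorem enc_pr' {s t : T} [hz : ZM W] (hs : enc s ∈ W) (ht : enc t ∈ W) : enc (.pr s t) ∈ W :=
  ZM.pair (zn_mem 2) (ZM.pair hs ht)

theorem enc_leaves [hz : ZM W] : ∀ t : T, enc t ∈ W → ∀ a ∈ t.leaves, a.toZFSet ∈ W := by
  intro t
  induction t with
  | nat n => intro _ a ha; simp [Tr.leaves] at ha
  | ord b =>
    intro h a ha
    simp only [Tr.leaves, mem_singleton_iff] at ha
    rw [ha]
    have h1 : ZFSet.pair (zn 1) b.toZFSet ∈ W := h
    exact (mem_of_pair h1).2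
  | pr s t ihs iht =>
    intro h a ha
    rcases ha with ha | ha
    · exact ihs (enc_pr h).1 a ha
    · exact iht (enc_pr h).2 a ha

theorem cl_complete [hz : ZM W] {A : Set Z} : ∀ t : T, enc t ∈ W →
    (∀ a ∈ t.leaves, a.toZFSet ∈ A) → ∃ f ∈ W, enc t ∈ f ∧ Cl A f := by
  intro t
  induction t with
  | nat n =>
    intro h _
    refine ⟨{enc (.nat n)}, ?_, ZFSet.mem_singleton.2 rfl, ?_⟩
    · have := hz.dbl _ h _ h
      have h2 : ({enc (.nat n)} : Z) = {enc (.nat n), enc (.nat n)} := by ext z; simp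
      rw [h2]
      exact this
    · intro x hx
      rw [ZFSet.mem_singleton] at hx
      exact Or.inl ⟨zn n, (mem_zω _).2 ⟨n, rfl⟩, hx⟩
  | ord b =>
    intro h hA
    refine ⟨{enc (.ord b)}, ?_, ZFSet.mem_singleton.2 rfl, ?_⟩
    · have := hz.dbl _ h _ h
      have h2 : ({enc (.ord b)} : Z) = {enc (.ord b), enc (.ord b)} := by ext z; simp
      rw [h2]
      exact this
    · intro x hx
      rw [ZFSet.mem_singleton] at hx
      exact Or.inr (Or.inl ⟨b.toZFSet, hA b (by simp [Tr.leaves]), ZFSet.isOrdinal_toZFSet _, hx⟩)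
  | pr s t ihs iht =>
    intro h hA
    obtain ⟨f, hfW, hf1, hf2⟩ := ihs (enc_pr h).1 fun a ha => hA a (Or.inl ha)
    obtain ⟨g, hgW, hg1, hg2⟩ := iht (enc_pr h).2 fun a ha => hA a (Or.inr ha)
    refine ⟨insert (enc (.pr s t)) (f ∪ g), ins_mem h (un_mem hfW hgW),
      ZFSet.mem_insert_iff.2 (Or.inl rfl), ?_⟩
    intro x hx
    have hsub1 : ∀ y ∈ f, y ∈ (insert (enc (.pr s t)) (f ∪ g) : Z) := fun y hy =>
      ZFSet.mem_insert_iff.2 (Or.inr (ZFSet.mem_union.2 (Or.inl hy)))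
    have hsub2 : ∀ y ∈ g, y ∈ (insert (enc (.pr s t)) (f ∪ g) : Z) := fun y hy =>
      ZFSet.mem_insert_iff.2 (Or.inr (ZFSet.mem_union.2 (Or.inr hy)))
    rcases ZFSet.mem_insert_iff.1 hx with h1 | h1
    · exact Or.inr (Or.inr ⟨enc s, hsub1 _ hf1, enc t, hsub2 _ hg1, h1⟩)
    · rcases ZFSet.mem_union.1 h1 with h2 | h2
      · rcases hf2 x h2 with h3 | h3 | ⟨y, hy, z, hz', h3⟩
        · exact Or.inl h3
        · exact Or.inr (Or.inl h3)
        · exact Or.inr (Or.inr ⟨y, hsub1 y hy, z, hsub1 z hz', h3⟩)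
      · rcases hg2 x h2 with h3 | h3 | ⟨y, hy, z, hz', h3⟩
        · exact Or.inl h3
        · exact Or.inr (Or.inl h3)
        · exact Or.inr (Or.inr ⟨y, hsub2 y hy, z, hsub2 z hz', h3⟩)

/-- Being a code. -/
theorem code_dp [h : PS W Q] [hz : ZM W] {f : (ℕ → Z) → Z} (hf : DT W Q f) :
    DP W Q (fun v => ∃ t : T, f v = enc t) := by
  have h1 : DP W Q (fun v => ∃ f ∈ W, v 0 ∈ f ∧ ∀ x ∈ f,
      (∃ n ∈ zω, x = ZFSet.pair (zn 0) n) ∨ (∃ a ∈ W, a.IsOrdinal ∧ x = ZFSet.pair (zn 1) a) ∨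
      ∃ y ∈ f, ∃ z ∈ f, x = ZFSet.pair (zn 2) (ZFSet.pair y z)) := by
    apply_rules (maxDepth := 500) [DP.ex, DP.and, DP.or, DP.ball, DP.bex, DP.mem, DP.eq, DP.isord,
      DT.pair, DT.nat, DT.om, DT.var]
  refine DP.app1 (R := fun x => ∃ t : T, x = enc t) (h1.congr fun v hv => ?_) hf
  constructor
  · rintro ⟨f, hfW, hf0, hf1⟩
    obtain ⟨t, ht, -⟩ := cl_sound (A := W) hf1 _ _ rfl hf0
    exact ⟨t, ht⟩
  · rintro ⟨t, ht⟩
    have h2 : enc t ∈ W := ht ▸ hv 0
    obtain ⟨f, hfW, hf0, hf1⟩ := cl_complete (A := W) t h2 (enc_leaves t h2)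
    exact ⟨f, hfW, ht ▸ hf0, hf1⟩

theorem tval_mem_W [hz : ZM W] (c : Code) (t : T) (h : enc t ∈ W) : enc (tval c t) ∈ W := by
  have hn : ∀ n : ℕ, enc (.nat n) ∈ W := fun n => ZM.pair (zn_mem 0) (zn_mem n)
  fun_induction tval c t with
  | case1 => exact h
  | case2 => exact hn _
  | case3 c e ih =>
    have h1 := ih h
    cases hh : tval c e with
    | nat n => exact hn _
    | ord a => exact hn _
    | pr s t => rw [hh] at h1; exact (enc_pr h1).1
  | case4 c e ih =>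
    have h1 := ih h
    cases hh : tval c e with
    | nat n => exact hn _
    | ord a => exact hn _
    | pr s t => rw [hh] at h1; exact (enc_pr h1).2
  | case5 s t e ih1 ih2 => exact enc_pr' (ih1 h) (ih2 h)
  | case6 => exact hn _

theorem fst_dp (h1 : G_ENC) [h : PS W Q] [hz : ZM W] :
    DP W Q (fun v => ∃ t : T, v 1 = enc t ∧ v 0 = enc t.fst) := by
  have hc : DP W Q (fun v => ∃ t : T, v 1 = enc t) := code_dp (DT.var 1)
  have h2 : DP W Q (fun v => (∃ t : T, v 1 = enc t) ∧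
      ((∃ z ∈ W, v 1 = ZFSet.pair (zn 2) (ZFSet.pair (v 0) z)) ∨
       ((¬ ∃ y ∈ W, ∃ z ∈ W, v 1 = ZFSet.pair (zn 2) (ZFSet.pair y z)) ∧
         v 0 = ZFSet.pair (zn 0) (zn 0)))) := by
    refine DP.and hc ?_
    apply_rules (maxDepth := 500) [DP.ex, DP.and, DP.or, DP.not, DP.eq, DT.pair, DT.nat, DT.var]
  refine h2.congr fun v hv => ?_
  constructor
  · rintro ⟨⟨t, ht⟩, h3⟩
    refine ⟨t, ht, ?_⟩
    cases t with
    | nat n =>
      rcases h3 with ⟨z, -, h3⟩ | ⟨-, h3⟩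
      · rw [ht] at h3
        have := (ZFSet.pair_inj.1 h3).1
        rw [zn_inj] at this
        omega
      · exact h3
    | ord a =>
      rcases h3 with ⟨z, -, h3⟩ | ⟨-, h3⟩
      · rw [ht] at h3
        have := (ZFSet.pair_inj.1 h3).1
        rw [zn_inj] at this
        omega
      · exact h3
    | pr s t =>
      rcases h3 with ⟨z, -, h3⟩ | ⟨h3, -⟩
      · rw [ht] at h3
        exact (ZFSet.pair_inj.1 (ZFSet.pair_inj.1 h3).2).1.symm
      · exfalso
        have h4 : enc (.pr s t) ∈ W := ht ▸ hv 1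
        exact h3 ⟨_, (enc_pr h4).1, _, (enc_pr h4).2, ht⟩
  · rintro ⟨t, ht, h3⟩
    refine ⟨⟨t, ht⟩, ?_⟩
    cases t with
    | nat n =>
      right
      refine ⟨?_, h3⟩
      rintro ⟨y, -, z, -, h4⟩
      rw [ht] at h4
      have := (ZFSet.pair_inj.1 h4).1
      rw [zn_inj] at this
      omega
    | ord a =>
      right
      refine ⟨?_, h3⟩
      rintro ⟨y, -, z, -, h4⟩
      rw [ht] at h4
      have := (ZFSet.pair_inj.1 h4).1
      rw [zn_inj] at this
      omega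
    | pr s t =>
      left
      have h4 : enc (.pr s t) ∈ W := ht ▸ hv 1
      refine ⟨_, (enc_pr h4).2, ?_⟩
      rw [ht, h3]
      rfl

theorem snd_dp (h1 : G_ENC) [h : PS W Q] [hz : ZM W] :
    DP W Q (fun v => ∃ t : T, v 1 = enc t ∧ v 0 = enc t.snd) := by
  have hc : DP W Q (fun v => ∃ t : T, v 1 = enc t) := code_dp (DT.var 1)
  have h2 : DP W Q (fun v => (∃ t : T, v 1 = enc t) ∧
      ((∃ z ∈ W, v 1 = ZFSet.pair (zn 2) (ZFSet.pair z (v 0))) ∨
       ((¬ ∃ y ∈ W, ∃ z ∈ W, v 1 = ZFSet.pair (zn 2) (ZFSet.pair y z)) ∧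
         v 0 = ZFSet.pair (zn 0) (zn 0)))) := by
    refine DP.and hc ?_
    apply_rules (maxDepth := 500) [DP.ex, DP.and, DP.or, DP.not, DP.eq, DT.pair, DT.nat, DT.var]
  refine h2.congr fun v hv => ?_
  constructor
  · rintro ⟨⟨t, ht⟩, h3⟩
    refine ⟨t, ht, ?_⟩
    cases t with
    | nat n =>
      rcases h3 with ⟨z, -, h3⟩ | ⟨-, h3⟩
      · rw [ht] at h3
        have := (ZFSet.pair_inj.1 h3).1
        rw [zn_inj] at this
        omega
      · exact h3
    | ord a =>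
      rcases h3 with ⟨z, -, h3⟩ | ⟨-, h3⟩
      · rw [ht] at h3
        have := (ZFSet.pair_inj.1 h3).1
        rw [zn_inj] at this
        omega
      · exact h3
    | pr s t =>
      rcases h3 with ⟨z, -, h3⟩ | ⟨h3, -⟩
      · rw [ht] at h3
        exact (ZFSet.pair_inj.1 (ZFSet.pair_inj.1 h3).2).2.symm
      · exfalso
        have h4 : enc (.pr s t) ∈ W := ht ▸ hv 1
        exact h3 ⟨_, (enc_pr h4).1, _, (enc_pr h4).2, ht⟩
  · rintro ⟨t, ht, h3⟩
    refine ⟨⟨t, ht⟩, ?_⟩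
    cases t with
    | nat n =>
      right
      refine ⟨?_, h3⟩
      rintro ⟨y, -, z, -, h4⟩
      rw [ht] at h4
      have := (ZFSet.pair_inj.1 h4).1
      rw [zn_inj] at this
      omega
    | ord a =>
      right
      refine ⟨?_, h3⟩
      rintro ⟨y, -, z, -, h4⟩
      rw [ht] at h4
      have := (ZFSet.pair_inj.1 h4).1
      rw [zn_inj] at this
      omega
    | pr s t =>
      left
      have h4 : enc (.pr s t) ∈ W := ht ▸ hv 1
      refine ⟨_, (enc_pr h4).1, ?_⟩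
      rw [ht, h3]
      rfl

/-- Composition of term functions. -/
theorem comp_dp (h1 : G_ENC) [h : PS W Q] [hz : ZM W] {f g : T → T}
    (hW : ∀ t : T, enc t ∈ W → enc (f t) ∈ W)
    (hf : DP W Q (fun v => ∃ t : T, v 1 = enc t ∧ v 0 = enc (f t)))
    (hg : DP W Q (fun v => ∃ t : T, v 1 = enc t ∧ v 0 = enc (g t))) :
    DP W Q (fun v => ∃ t : T, v 1 = enc t ∧ v 0 = enc (g (f t))) := by
  have h2 : DP W Q (fun v => ∃ w ∈ W, (∃ t : T, v 1 = enc t ∧ w = enc (f t)) ∧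
      ∃ t : T, w = enc t ∧ v 0 = enc (g t)) := by
    refine DP.ex (P := fun w v => (∃ t : T, v 1 = enc t ∧ w = enc (f t)) ∧
      ∃ t : T, w = enc t ∧ v 0 = enc (g t)) (DP.and ?_ ?_)
    · exact DP.app2 (R := fun a b => ∃ t : T, b = enc t ∧ a = enc (f t)) hf (DT.var 0) (DT.var 2)
    · exact DP.app2 (R := fun a b => ∃ t : T, b = enc t ∧ a = enc (g t)) hg (DT.var 1) (DT.var 0)
  refine h2.congr fun v hv => ?_
  constructor
  · rintro ⟨w, -, ⟨t, ht, hw⟩, s, hs, h3⟩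
    refine ⟨t, ht, ?_⟩
    rw [hw] at hs
    rw [h1.1 _ _ hs]
    exact h3
  · rintro ⟨t, ht, h3⟩
    exact ⟨enc (f t), hW t (ht ▸ hv 1), ⟨t, ht, rfl⟩, f t, rfl, h3⟩

theorem tval_dp (h1 : G_ENC) [h : PS W Q] [hz : ZM W] (c : Code) :
    DP W Q (fun v => ∃ t : T, v 1 = enc t ∧ v 0 = enc (tval c t)) := by
  have hk : ∀ n : ℕ, DP W Q (fun v => ∃ t : T, v 1 = enc t ∧ v 0 = enc (.nat n)) := by
    intro n
    have h2 : DP W Q (fun v => (∃ t : T, v 1 = enc t) ∧ v 0 = ZFSet.pair (zn 0) (zn n)) := by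
      refine DP.and (code_dp (DT.var 1)) ?_
      apply_rules (maxDepth := 500) [DP.eq, DT.pair, DT.nat, DT.var]
    refine h2.congr fun v hv => ?_
    constructor
    · rintro ⟨⟨t, ht⟩, h3⟩
      exact ⟨t, ht, h3⟩
    · rintro ⟨t, ht, h3⟩
      exact ⟨⟨t, ht⟩, h3⟩
  -- induction on the size
  have main : ∀ (n : ℕ) (c : Code), c.height ≤ n →
      DP W Q (fun v => ∃ t : T, v 1 = enc t ∧ v 0 = enc (tval c t)) := by
    intro n
    induction n with
    | zero =>
      intro c hc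
      match c with
      | .nat 0 =>
        have h2 : DP W Q (fun v => (∃ t : T, v 1 = enc t) ∧ v 0 = v 1) :=
          DP.and (code_dp (DT.var 1)) (DP.veq 0 1)
        refine h2.congr fun v hv => ?_
        constructor
        · rintro ⟨⟨t, ht⟩, h3⟩
          exact ⟨t, ht, by rw [h3, ht]; rfl⟩
        · rintro ⟨t, ht, h3⟩
          exact ⟨⟨t, ht⟩, by rw [h3, ht]; rfl⟩
      | .nat (n + 1) => exact hk n
      | .pr s t => simp [Tr.height] at hc
    | succ n ih =>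
      intro c hc
      match c with
      | .nat 0 =>
        exact ih (.nat 0) (by simp [Tr.height])
      | .nat (n + 1) => exact hk n
      | .pr (.nat 0) s =>
        have hs : s.height ≤ n := by simp [Tr.height] at hc; omega
        exact comp_dp h1 (f := fun t => tval s t) (g := fun t => t.fst)
          (fun t ht => tval_mem_W s t ht) (ih s hs) (fst_dp h1)
      | .pr (.nat 1) s =>
        have hs : s.height ≤ n := by simp [Tr.height] at hc; omega
        exact comp_dp h1 (f := fun t => tval s t) (g := fun t => t.snd)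
          (fun t ht => tval_mem_W s t ht) (ih s hs) (snd_dp h1)
      | .pr (.nat 2) (.pr s r) =>
        have hs : s.height ≤ n ∧ r.height ≤ n := by simp [Tr.height] at hc; omega
        have h2 : DP W Q (fun v => ∃ a ∈ W, ∃ b ∈ W, (∃ t : T, v 1 = enc t ∧ a = enc (tval s t)) ∧
            (∃ t : T, v 1 = enc t ∧ b = enc (tval r t)) ∧
            v 0 = ZFSet.pair (zn 2) (ZFSet.pair a b)) := by
          refine DP.ex (P := fun a v => ∃ b ∈ W, (∃ t : T, v 1 = enc t ∧ a = enc (tval s t)) ∧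
            (∃ t : T, v 1 = enc t ∧ b = enc (tval r t)) ∧
            v 0 = ZFSet.pair (zn 2) (ZFSet.pair a b)) ?_
          refine DP.ex (P := fun b v => (∃ t : T, v 2 = enc t ∧ v 0 = enc (tval s t)) ∧
            (∃ t : T, v 2 = enc t ∧ b = enc (tval r t)) ∧
            v 1 = ZFSet.pair (zn 2) (ZFSet.pair (v 0) b)) ?_
          refine DP.and ?_ (DP.and ?_ ?_)
          · exact DP.app2 (R := fun a b => ∃ t : T, b = enc t ∧ a = enc (tval s t)) (ih s hs.1)
              (DT.var 1) (DT.var 3)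
          · exact DP.app2 (R := fun a b => ∃ t : T, b = enc t ∧ a = enc (tval r t)) (ih r hs.2)
              (DT.var 0) (DT.var 3)
          · apply_rules (maxDepth := 500) [DP.eq, DT.pair, DT.nat, DT.var]
        refine h2.congr fun v hv => ?_
        constructor
        · rintro ⟨a, -, b, -, ⟨t, ht, ha⟩, ⟨t', ht', hb⟩, h3⟩
          rw [ht] at ht'
          have e := h1.1 _ _ ht'
          subst e
          refine ⟨t, ht, ?_⟩
          rw [h3, ha, hb]
          rfl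
        · rintro ⟨t, ht, h3⟩
          have hW : enc t ∈ W := ht ▸ hv 1
          exact ⟨_, tval_mem_W s t hW, _, tval_mem_W r t hW, ⟨t, ht, rfl⟩, ⟨t, ht, rfl⟩, h3⟩
      | .pr (.nat 2) (.nat k) => exact (hk 0).congr fun v hv => Iff.rfl
      | .pr (.nat (k + 3)) s => exact (hk 0).congr fun v hv => Iff.rfl
      | .pr (.pr a b) s => exact (hk 0).congr fun v hv => Iff.rfl
  exact main c.height c le_rfl

theorem thm (h1 : G_ENC) : G_EDF := by
  intro W Q hz hQ
  haveI := hz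
  haveI := hQ
  have hc : ∀ i, DP W Q (fun v => ∃ t : T, v i = enc t) := fun i => code_dp (DT.var i)
  refine ⟨hc 0, ?_, ?_, tval_dp h1, ?_, ?_⟩
  · have h2 : DP W Q (fun v => (∃ m ∈ zω, ∃ n ∈ zω, v 0 = ZFSet.pair (zn 0) m ∧
        v 1 = ZFSet.pair (zn 0) n ∧ m ∈ n) ∨
      (∃ m ∈ zω, ∃ a ∈ W, a.IsOrdinal ∧ v 0 = ZFSet.pair (zn 0) m ∧ v 1 = ZFSet.pair (zn 1) a) ∨
      (∃ a ∈ W, ∃ b ∈ W, a.IsOrdinal ∧ b.IsOrdinal ∧ v 0 = ZFSet.pair (zn 1) a ∧
        v 1 = ZFSet.pair (zn 1) b ∧ a ∈ b)) := by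
      apply_rules (maxDepth := 500) [DP.ex, DP.bex, DP.and, DP.or, DP.eq, DP.mem, DP.isord, DT.pair,
        DT.nat, DT.om, DT.var]
    refine h2.congr fun v hv => ?_
    constructor
    · rintro (⟨m, hm, n, hn, h3, h4, h5⟩ | ⟨m, hm, a, haW, ha, h3, h4⟩ |
        ⟨a, haW, b, hbW, ha, hb, h3, h4, h5⟩)
      · obtain ⟨m, rfl⟩ := (mem_zω m).1 hm
        obtain ⟨n, rfl⟩ := (mem_zω n).1 hn
        refine ⟨.nat m, .nat n, h3, h4, ?_⟩
        simp only [zn, Ordinal.toZFSet_mem_toZFSet_iff] at h5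
        exact_mod_cast h5
      · obtain ⟨m, rfl⟩ := (mem_zω m).1 hm
        refine ⟨.nat m, .ord a.rank, h3, ?_, trivial⟩
        rw [h4, enc, ha.toZFSet_rank_eq]
      · refine ⟨.ord a.rank, .ord b.rank, ?_, ?_, ?_⟩
        · rw [h3, enc, ha.toZFSet_rank_eq]
        · rw [h4, enc, hb.toZFSet_rank_eq]
        · exact ZFSet.rank_lt_of_mem h5
    · rintro ⟨s, t, h3, h4, h5⟩
      match s, t, h3, h4, h5 with
      | .nat m, .nat n, h3, h4, h5 =>
        left
        refine ⟨zn m, (mem_zω _).2 ⟨m, rfl⟩, zn n, (mem_zω _).2 ⟨n, rfl⟩, h3, h4, ?_⟩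
        simp only [zn, Ordinal.toZFSet_mem_toZFSet_iff]
        exact_mod_cast h5
      | .nat m, .ord a, h3, h4, h5 =>
        right; left
        have h6 : ZFSet.pair (zn 1) a.toZFSet ∈ W := by
          have := hv 1
          rw [h4] at this
          exact this
        exact ⟨zn m, (mem_zω _).2 ⟨m, rfl⟩, a.toZFSet, (mem_of_pair h6).2,
          ZFSet.isOrdinal_toZFSet _, h3, h4⟩
      | .ord a, .ord b, h3, h4, h5 =>
        right; right
        have h6 : ZFSet.pair (zn 1) a.toZFSet ∈ W := by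
          have := hv 0
          rw [h3] at this
          exact this
        have h7 : ZFSet.pair (zn 1) b.toZFSet ∈ W := by
          have := hv 1
          rw [h4] at this
          exact this
        exact ⟨a.toZFSet, (mem_of_pair h6).2, b.toZFSet, (mem_of_pair h7).2,
          ZFSet.isOrdinal_toZFSet _, ZFSet.isOrdinal_toZFSet _, h3, h4,
          Ordinal.toZFSet_mem_toZFSet_iff.2 h5⟩
  · have h2 : DP W Q (fun v => ∃ a ∈ W, a.IsOrdinal ∧ v 0 = ZFSet.pair (zn 1) a) := by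
      apply_rules (maxDepth := 500) [DP.ex, DP.and, DP.eq, DP.isord, DT.pair, DT.nat, DT.var]
    refine h2.congr fun v hv => ?_
    constructor
    · rintro ⟨a, haW, ha, h3⟩
      refine ⟨.ord a.rank, ?_, trivial⟩
      rw [h3, enc, ha.toZFSet_rank_eq]
    · rintro ⟨t, h3, h4⟩
      match t, h3, h4 with
      | .ord a, h3, h4 =>
        have h6 : ZFSet.pair (zn 1) a.toZFSet ∈ W := by
          have := hv 0
          rw [h3] at this
          exact this
        exact ⟨a.toZFSet, (mem_of_pair h6).2, ZFSet.isOrdinal_toZFSet _, h3⟩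
  · have h2 : DP W Q (fun v => (∃ t : T, v 1 = enc t) ∧ (∃ t : T, v 2 = enc t) ∧
        v 0 = ZFSet.pair (zn 2) (ZFSet.pair (v 1) (v 2))) := by
      refine DP.and (hc 1) (DP.and (hc 2) ?_)
      apply_rules (maxDepth := 500) [DP.eq, DT.pair, DT.nat, DT.var]
    refine h2.congr fun v hv => ?_
    constructor
    · rintro ⟨⟨s, hs⟩, ⟨t, ht⟩, h3⟩
      exact ⟨s, t, by rw [h3, hs, ht]; rfl, hs, ht⟩
    · rintro ⟨s, t, h3, hs, ht⟩
      exact ⟨⟨s, hs⟩, ⟨t, ht⟩, by rw [h3, hs, ht]; rfl⟩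
  · have h2 : DP W Q (fun v => (v 1).IsOrdinal ∧ ∃ f ∈ W, v 0 ∈ f ∧ ∀ x ∈ f,
        (∃ n ∈ zω, x = ZFSet.pair (zn 0) n) ∨
        (∃ a ∈ v 1, a.IsOrdinal ∧ x = ZFSet.pair (zn 1) a) ∨
        ∃ y ∈ f, ∃ z ∈ f, x = ZFSet.pair (zn 2) (ZFSet.pair y z)) := by
      apply_rules (maxDepth := 500) [DP.ex, DP.and, DP.or, DP.ball, DP.bex, DP.mem, DP.eq, DP.isord,
        DT.pair, DT.nat, DT.om, DT.var]
    refine h2.congr fun v hv => ?_
    constructor
    · rintro ⟨ho, f, hfW, hf0, hf1⟩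
      obtain ⟨t, ht, ht'⟩ := cl_sound (A := {a | a ∈ v 1}) hf1 _ _ rfl hf0
      refine ⟨(v 1).rank, t, ht, ho.toZFSet_rank_eq.symm, fun a ha => ?_⟩
      have := ht' a ha
      rw [mem_setOf_eq, ← ho.toZFSet_rank_eq, Ordinal.toZFSet_mem_toZFSet_iff] at this
      exact this
    · rintro ⟨d, t, ht, hd, htd⟩
      have h3 : enc t ∈ W := ht ▸ hv 0
      obtain ⟨f, hfW, hf0, hf1⟩ := cl_complete (A := {a | a ∈ v 1}) t h3 (fun a ha => by
        rw [mem_setOf_eq, hd, Ordinal.toZFSet_mem_toZFSet_iff]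
        exact htd ha)
      exact ⟨hd ▸ ZFSet.isOrdinal_toZFSet _, f, hfW, ht ▸ hf0, hf1⟩

end Pool.Agent.Helper17.OD.PkEDF
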