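import Pool.Agent.Helper17.OD.GoalsWM

/-!
# Packet OD WREC: recursion along `∈` in a transitive model of ZF

No transitive closures are needed: `Good f` (every pair `(y, z)` of `f` comes with a restriction of `f` to `y`) is
closed under unions and intersections, and all pairs of a good set are `(y, F y)`.
-/

namespace Pool.Agent.Helper17.OD.PkWREC

open Set

variable {W Q : Set Z}

/-- Attempts. -/
def Good (W : Set Z) (H : Z → Z → Z) (f : Z) : Prop :=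
  ∀ y ∈ W, ∀ z ∈ W, ZFSet.pair y z ∈ f → ∃ g ∈ W, g ⊆ f ∧
    (∀ p ∈ g, ∃ u ∈ y, ∃ w ∈ W, p = ZFSet.pair u w) ∧
    (∀ u ∈ y, ∃ w ∈ W, ZFSet.pair u w ∈ g) ∧ z = H y g

theorem good_dp [h : PS W Q] [hz : ZM W] {H : Z → Z → Z}
    (hH : DP W Q (fun v => v 0 = H (v 1) (v 2))) : DP W Q (fun v => Good W H (v 0)) := by
  have key : ∀ i j k : ℕ, DP W Q (fun v => v i = H (v j) (v k)) := fun i j k =>
    DP.app3 (R := fun a b c => a = H b c) hH (DT.var i) (DT.var j) (DT.var k)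
  unfold Good
  refine DP.all (P := fun y v => ∀ z ∈ W, ZFSet.pair y z ∈ v 0 → ∃ g ∈ W, g ⊆ v 0 ∧
    (∀ p ∈ g, ∃ u ∈ y, ∃ w ∈ W, p = ZFSet.pair u w) ∧
    (∀ u ∈ y, ∃ w ∈ W, ZFSet.pair u w ∈ g) ∧ z = H y g) ?_
  refine DP.all (P := fun z v => ZFSet.pair (v 0) z ∈ v 1 → ∃ g ∈ W, g ⊆ v 1 ∧
    (∀ p ∈ g, ∃ u ∈ v 0, ∃ w ∈ W, p = ZFSet.pair u w) ∧
    (∀ u ∈ v 0, ∃ w ∈ W, ZFSet.pair u w ∈ g) ∧ z = H (v 0) g) ?_
  refine DP.imp ?_ ?_
  · apply_rules (maxDepth := 500) [DP.mem, DT.pair, DT.var]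
  refine DP.ex (P := fun g v => g ⊆ v 2 ∧
    (∀ p ∈ g, ∃ u ∈ v 1, ∃ w ∈ W, p = ZFSet.pair u w) ∧
    (∀ u ∈ v 1, ∃ w ∈ W, ZFSet.pair u w ∈ g) ∧ v 0 = H (v 1) g) ?_
  refine DP.and ?_ (DP.and ?_ (DP.and ?_ ?_))
  · apply_rules (maxDepth := 500) [DP.sub, DT.var]
  · apply_rules (maxDepth := 500) [DP.ball, DP.bex, DP.ex, DP.eq, DT.pair, DT.var]
  · apply_rules (maxDepth := 500) [DP.ball, DP.bex, DP.ex, DP.mem, DT.pair, DT.var]
  · exact key 1 2 0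

theorem thm : G_WREC := by
  intro W Q hz hQ F H hH hHd hF
  haveI := hz
  haveI := hQ
  have hG : DP W Q (fun v => Good W H (v 0)) := good_dp hHd
  have hGW : DP W W (fun v => Good W H (v 0)) := hG.mono hQ.sub
  -- uniqueness
  have huniq : ∀ f ∈ W, Good W H f → ∀ y z : Z, ZFSet.pair y z ∈ f → z = F y := by
    intro f hf hgood y
    induction y using ZFSet.inductionOn with
    | _ y ih =>
      intro z hyz
      obtain ⟨hyW, hzW⟩ := mem_of_pair (hz.trans f hf _ hyz)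
      obtain ⟨g, hgW, hgf, hg1, hg2, hzH⟩ := hgood y hyW z hzW hyz
      rw [hzH]
      refine (hF y hyW g hgW fun p => ⟨fun hp => ?_, ?_⟩).symm
      · obtain ⟨u, hu, w, -, rfl⟩ := hg1 p hp
        exact ⟨u, hu, by rw [ih u hu w (hgf hp)]⟩
      · rintro ⟨u, hu, rfl⟩
        obtain ⟨w, -, hw⟩ := hg2 u hu
        rw [← ih u hu w (hgf hw)]
        exact hw
  -- the least attempt
  have hleast : ∀ u ∈ W, (∃ f ∈ W, Good W H f ∧ ∃ w ∈ W, ZFSet.pair u w ∈ f) →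
      ∃ f ∈ W, (Good W H f ∧ ∃ w ∈ W, ZFSet.pair u w ∈ f) ∧
        ∀ f' ∈ W, Good W H f' → (∃ w ∈ W, ZFSet.pair u w ∈ f') → f ⊆ f' := by
    rintro u huW ⟨f, hfW, hfg, w, hwW, hw⟩
    obtain ⟨b, hbW, hb⟩ := hz.sep (fun p => ∀ f' ∈ W, Good W H f' →
      (∃ w ∈ W, ZFSet.pair u w ∈ f') → p ∈ f') (by
        refine DP.all (P := fun f' v => Good W H f' →
          (∃ w ∈ W, ZFSet.pair u w ∈ f') → v 0 ∈ f') ?_
        refine DP.imp hGW (DP.imp ?_ (DP.vmem 1 0))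
        apply_rules (maxDepth := 500) [DP.ex, DP.mem, DT.pair, DT.var, DT.par]) f hfW
    refine ⟨b, hbW, ⟨?_, w, hwW, ?_⟩, fun f' hf'W hf'g hf'w p hp => ((hb p).1 hp).2 f' hf'W hf'g hf'w⟩
    · intro y hyW z hzW hyz
      obtain ⟨hyz1, hyz2⟩ := (hb _).1 hyz
      obtain ⟨g, hgW, hgf, hg1, hg2, hzH⟩ := hfg y hyW z hzW hyz1
      refine ⟨g, hgW, fun p hp => ?_, hg1, hg2, hzH⟩
      refine (hb p).2 ⟨hgf hp, fun f' hf'W hf'g hf'w => ?_⟩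
      obtain ⟨a, ha, c, -, rfl⟩ := hg1 p hp
      obtain ⟨g', -, hgf', -, hg2', -⟩ := hf'g y hyW z hzW (hyz2 f' hf'W hf'g hf'w)
      obtain ⟨c', -, hc'⟩ := hg2' a ha
      have e1 := huniq f hfW hfg a c (hgf hp)
      have e2 := huniq f' hf'W hf'g a c' (hgf' hc')
      rw [e1, ← e2]
      exact hgf' hc'
    · refine (hb _).2 ⟨hw, fun f' hf'W hf'g hf'w => ?_⟩
      obtain ⟨w', -, hw'⟩ := hf'w
      have e1 := huniq f hfW hfg u w hw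
      have e2 := huniq f' hf'W hf'g u w' hw'
      rw [e1, ← e2]
      exact hw'
  -- definability of the least attempt
  have hLd : DP W W (fun v => (Good W H (v 1) ∧ ∃ w ∈ W, ZFSet.pair (v 0) w ∈ v 1) ∧
      ∀ f' ∈ W, Good W H f' → (∃ w ∈ W, ZFSet.pair (v 0) w ∈ f') → v 1 ⊆ f') := by
    refine DP.and (DP.and ?_ ?_) ?_
    · exact DP.ren (P := fun v => Good W H (v 0)) (fun n => n + 1) hGW
    · apply_rules (maxDepth := 500) [DP.ex, DP.mem, DT.pair, DT.var]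
    · refine DP.all (P := fun f' v => Good W H f' →
        (∃ w ∈ W, ZFSet.pair (v 0) w ∈ f') → v 1 ⊆ f') ?_
      refine DP.imp hGW (DP.imp ?_ (DP.sub (DT.var 2) (DT.var 0)))
      apply_rules (maxDepth := 500) [DP.ex, DP.mem, DT.pair, DT.var]
  -- the step
  have hstep : ∀ x ∈ W, (∀ u ∈ x, ∃ f ∈ W, Good W H f ∧ ∃ w ∈ W, ZFSet.pair u w ∈ f) →
      (∃ g ∈ W, ∀ p, p ∈ g ↔ ∃ y ∈ x, p = ZFSet.pair y (F y)) ∧
      ∃ f ∈ W, Good W H f ∧ ∃ w ∈ W, ZFSet.pair x w ∈ f := by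
    intro x hxW hx
    obtain ⟨B, hBW, hB⟩ := hz.repl (fun u f => (Good W H f ∧ ∃ w ∈ W, ZFSet.pair u w ∈ f) ∧
      ∀ f' ∈ W, Good W H f' → (∃ w ∈ W, ZFSet.pair u w ∈ f') → f ⊆ f') hLd x hxW (by
        intro u hu
        obtain ⟨f, hfW, hf1, hf2⟩ := hleast u (hz.trans x hxW u hu) (hx u hu)
        refine ⟨f, hfW, ⟨hf1, hf2⟩, fun f' hf'W hf' => ?_⟩
        ext p
        exact ⟨fun hp => hf'.2 f hfW hf1.1 hf1.2 hp, fun hp => hf2 f' hf'W hf'.1.1 hf'.1.2 hp⟩)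
    set U : Z := ZFSet.sUnion B with hU
    have hUW : U ∈ W := hz.union B hBW
    have hUg : Good W H U := by
      intro y hyW z hzW hyz
      rw [hU, ZFSet.mem_sUnion] at hyz
      obtain ⟨f, hfB, hf⟩ := hyz
      obtain ⟨hfW, u, hu, hR⟩ := (hB f).1 hfB
      obtain ⟨g, hgW, hgf, hg1, hg2, hzH⟩ := hR.1.1 y hyW z hzW hf
      exact ⟨g, hgW, fun p hp => ZFSet.mem_sUnion.2 ⟨f, hfB, hgf hp⟩, hg1, hg2, hzH⟩
    have hUx : ∀ u ∈ x, ∃ w ∈ W, ZFSet.pair u w ∈ U := by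
      intro u hu
      obtain ⟨f, hfW, hf1, hf2⟩ := hleast u (hz.trans x hxW u hu) (hx u hu)
      obtain ⟨w, hwW, hw⟩ := hf1.2
      exact ⟨w, hwW, ZFSet.mem_sUnion.2 ⟨f, (hB f).2 ⟨hfW, u, hu, hf1, hf2⟩, hw⟩⟩
    obtain ⟨g, hgW, hg⟩ := hz.sep (fun p => ∃ u ∈ x, ∃ w ∈ W, p = ZFSet.pair u w) (by
      apply_rules (maxDepth := 500) [DP.bex, DP.ex, DP.eq, DT.pair, DT.var, DT.par]) U hUW
    have hg' : ∀ p, p ∈ g ↔ ∃ y ∈ x, p = ZFSet.pair y (F y) := by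
      intro p
      rw [hg]
      constructor
      · rintro ⟨hpU, u, hu, w, -, rfl⟩
        exact ⟨u, hu, by rw [huniq U hUW hUg u w hpU]⟩
      · rintro ⟨u, hu, rfl⟩
        obtain ⟨w, hwW, hw⟩ := hUx u hu
        have e := huniq U hUW hUg u w hw
        rw [← e]
        exact ⟨hw, u, hu, w, hwW, rfl⟩
    refine ⟨⟨g, hgW, hg'⟩, ?_⟩
    have hHW := hH x hxW g hgW
    have hpW : ZFSet.pair x (H x g) ∈ W := ZM.pair hxW hHW
    have hVW : (insert (ZFSet.pair x (H x g)) U : Z) ∈ W :=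
      (DT.ins (W := W) (Q := W) (DT.par hpW) (DT.par hUW)).1 (fun _ => ∅) (fun _ => hz.emp)
    refine ⟨_, hVW, ?_, H x g, hHW, ZFSet.mem_insert_iff.2 (Or.inl rfl)⟩
    intro y hyW z hzW hyz
    rcases ZFSet.mem_insert_iff.1 hyz with h1 | h1
    · obtain ⟨rfl, rfl⟩ := ZFSet.pair_inj.1 h1
      refine ⟨g, hgW, fun p hp => ZFSet.mem_insert_iff.2 (Or.inr ((hg p).1 hp).1),
        fun p hp => ((hg p).1 hp).2, fun u hu => ?_, rfl⟩
      obtain ⟨w, hwW, hw⟩ := hUx u hu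
      exact ⟨w, hwW, (hg _).2 ⟨hw, u, hu, w, hwW, rfl⟩⟩
    · obtain ⟨g1, hg1W, h2, h3, h4, h5⟩ := hUg y hyW z hzW h1
      exact ⟨g1, hg1W, fun p hp => ZFSet.mem_insert_iff.2 (Or.inr (h2 hp)), h3, h4, h5⟩
  -- existence
  have hex : ∀ x : Z, x ∈ W → ∃ f ∈ W, Good W H f ∧ ∃ w ∈ W, ZFSet.pair x w ∈ f := by
    intro x
    induction x using ZFSet.inductionOn with
    | _ x ih =>
      intro hxW
      exact (hstep x hxW fun u hu => ih u hu (hz.trans x hxW u hu)).2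
  have hFW : ∀ x ∈ W, F x ∈ W := by
    intro x hx
    obtain ⟨f, hfW, hfg, w, hwW, hw⟩ := hex x hx
    rw [← huniq f hfW hfg x w hw]
    exact hwW
  refine ⟨hFW, ?_, fun x hx => (hstep x hx fun u hu => hex u (hz.trans x hx u hu)).1⟩
  have h1 : DP W Q (fun v => ∃ f ∈ W, Good W H f ∧ ZFSet.pair (v 1) (v 0) ∈ f) := by
    refine DP.ex (P := fun f v => Good W H f ∧ ZFSet.pair (v 1) (v 0) ∈ f) ?_
    refine DP.and hG ?_
    apply_rules (maxDepth := 500) [DP.mem, DT.pair, DT.var]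
  refine h1.congr fun v hv => ⟨?_, fun h => ?_⟩
  · rintro ⟨f, hfW, hfg, hf⟩
    exact huniq f hfW hfg _ _ hf
  · obtain ⟨f, hfW, hfg, w, hwW, hw⟩ := hex (v 1) (hv 1)
    refine ⟨f, hfW, hfg, ?_⟩
    rw [h, ← huniq f hfW hfg _ w hw]
    exact hw

end Pool.Agent.Helper17.OD.PkWREC
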